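import Pool.Agent.Helper47.EX.Defs

/-!
# EX-9: the minimum of the free energy
-/

set_option autoImplicit false

namespace Pool.Agent.Helper25.EX

open Pool.Agent.Helper47.EX Real

/-- The derivative of `H` with respect to `log x`. -/
noncomputable def DH (x : ℝ) : ℝ :=
  x / (1 + x) / log 2 - (x + 2) / (x ^ 2 + x + 1) / log 3

theorem log2_pos : 0 < log (2 : ℝ) := log_pos (by norm_num)

theorem log3_pos : 0 < log (3 : ℝ) := log_pos (by norm_num)

theorem tangent2 {x y : ℝ} (hx : 0 < x) (hy : 0 < y) :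
    log (1 + x) + x / (1 + x) * (log y - log x) ≤ log (1 + y) := by
  have h1 : log ((1 + x) / (1 + y)) ≤ (1 + x) / (1 + y) - 1 :=
    log_le_sub_one_of_pos (by positivity)
  have h2 : log (y / x * ((1 + x) / (1 + y))) ≤ y / x * ((1 + x) / (1 + y)) - 1 :=
    log_le_sub_one_of_pos (by positivity)
  have e1 : log ((1 + x) / (1 + y)) = log (1 + x) - log (1 + y) :=
    log_div (by positivity) (by positivity)
  have e2 : log (y / x * ((1 + x) / (1 + y))) = log y - log x + (log (1 + x) - log (1 + y)) := by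
    rw [log_mul (by positivity) (by positivity), e1, log_div hy.ne' hx.ne']
  rw [e1] at h1
  rw [e2] at h2
  have hw1 : 0 ≤ 1 / (1 + x) := by positivity
  have hw2 : 0 ≤ x / (1 + x) := by positivity
  have h3 := mul_le_mul_of_nonneg_left h1 hw1
  have h4 := mul_le_mul_of_nonneg_left h2 hw2
  have e3 : 1 / (1 + x) * ((1 + x) / (1 + y) - 1) + x / (1 + x) * (y / x * ((1 + x) / (1 + y)) - 1)
      = 0 := by
    field_simp
    ring
  have e4 : 1 / (1 + x) + x / (1 + x) = 1 := by field_simp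
  have e5 : 1 / (1 + x) * (log (1 + x) - log (1 + y)) +
      x / (1 + x) * (log y - log x + (log (1 + x) - log (1 + y))) =
      (1 / (1 + x) + x / (1 + x)) * (log (1 + x) - log (1 + y)) +
        x / (1 + x) * (log y - log x) := by ring
  rw [e4, one_mul] at e5
  linarith

theorem tangent3 {x y : ℝ} (hx : 0 < x) (hy : 0 < y) :
    log (1 + x⁻¹ + x⁻¹ ^ 2) - (x + 2) / (x ^ 2 + x + 1) * (log y - log x) ≤
      log (1 + y⁻¹ + y⁻¹ ^ 2) := by
  set A := 1 + x⁻¹ + x⁻¹ ^ 2 with hA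
  set B := 1 + y⁻¹ + y⁻¹ ^ 2 with hB
  have hA0 : 0 < A := by positivity
  have hB0 : 0 < B := by positivity
  have h0 : log (A / B) ≤ A / B - 1 := log_le_sub_one_of_pos (by positivity)
  have h1 : log (x / y * (A / B)) ≤ x / y * (A / B) - 1 := log_le_sub_one_of_pos (by positivity)
  have h2 : log ((x / y) ^ 2 * (A / B)) ≤ (x / y) ^ 2 * (A / B) - 1 :=
    log_le_sub_one_of_pos (by positivity)
  have e0 : log (A / B) = log A - log B := log_div hA0.ne' hB0.ne'
  have exy : log (x / y) = log x - log y := log_div hx.ne' hy.ne'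
  have e1 : log (x / y * (A / B)) = log x - log y + (log A - log B) := by
    rw [log_mul (by positivity) (by positivity), e0, exy]
  have e2 : log ((x / y) ^ 2 * (A / B)) = 2 * (log x - log y) + (log A - log B) := by
    rw [log_mul (by positivity) (by positivity), e0, log_pow, exy]
    push_cast
    ring
  rw [e0] at h0
  rw [e1] at h1
  rw [e2] at h2
  have hS : 0 < x ^ 2 + x + 1 := by positivity
  have g0 := mul_le_mul_of_nonneg_left h0 (show 0 ≤ x ^ 2 / (x ^ 2 + x + 1) by positivity)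
  have g1 := mul_le_mul_of_nonneg_left h1 (show 0 ≤ x / (x ^ 2 + x + 1) by positivity)
  have g2 := mul_le_mul_of_nonneg_left h2 (show 0 ≤ 1 / (x ^ 2 + x + 1) by positivity)
  have e3 : x ^ 2 / (x ^ 2 + x + 1) * (A / B - 1) + x / (x ^ 2 + x + 1) * (x / y * (A / B) - 1) +
      1 / (x ^ 2 + x + 1) * ((x / y) ^ 2 * (A / B) - 1) = 0 := by
    rw [hA, hB]
    field_simp
    ring
  have e4 : x ^ 2 / (x ^ 2 + x + 1) * (log A - log B) +
      x / (x ^ 2 + x + 1) * (log x - log y + (log A - log B)) +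
      1 / (x ^ 2 + x + 1) * (2 * (log x - log y) + (log A - log B)) =
      (x ^ 2 / (x ^ 2 + x + 1) + x / (x ^ 2 + x + 1) + 1 / (x ^ 2 + x + 1)) * (log A - log B) -
        (x + 2) / (x ^ 2 + x + 1) * (log y - log x) := by ring
  have e5 : x ^ 2 / (x ^ 2 + x + 1) + x / (x ^ 2 + x + 1) + 1 / (x ^ 2 + x + 1) = 1 := by
    field_simp
  rw [e5, one_mul] at e4
  linarith

theorem tangent {x y : ℝ} (hx : 0 < x) (hy : 0 < y) : H x + DH x * (log y - log x) ≤ H y := by
  have h2 := div_le_div_of_nonneg_right (tangent2 hx hy) log2_pos.le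
  have h3 := div_le_div_of_nonneg_right (tangent3 hx hy) log3_pos.le
  have e : H x + DH x * (log y - log x) =
      (log (1 + x) + x / (1 + x) * (log y - log x)) / log 2 +
      (log (1 + x⁻¹ + x⁻¹ ^ 2) - (x + 2) / (x ^ 2 + x + 1) * (log y - log x)) / log 3 - 1 := by
    unfold H DH
    ring
  rw [e]
  unfold H
  linarith

theorem DH_cont {x : ℝ} (hx : 0 < x) : ContinuousAt DH x := by
  unfold DH
  have h1 : 1 + x ≠ 0 := by positivity
  have h2 : x ^ 2 + x + 1 ≠ 0 := by positivity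
  have h3 := log2_pos.ne'
  have h4 := log3_pos.ne'
  fun_prop (disch := assumption)

theorem lt_of_pow {a b : ℝ} (ha : 0 < a) (hb : 1 < b) {p q : ℕ} (hq : 0 < q) (h : a ^ q < b ^ p) :
    log a / log b < p / q := by
  have hq' : (0 : ℝ) < q := by exact_mod_cast hq
  rw [div_lt_div_iff₀ (log_pos hb) hq']
  have := log_lt_log (pow_pos ha q) h
  rw [log_pow, log_pow] at this
  linarith

theorem gt_of_pow {a b : ℝ} (hb : 1 < b) {p q : ℕ} (hq : 0 < q) (h : b ^ p < a ^ q) :
    (p : ℝ) / q < log a / log b := by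
  have hq' : (0 : ℝ) < q := by exact_mod_cast hq
  rw [div_lt_div_iff₀ hq' (log_pos hb)]
  have := log_lt_log (pow_pos (by linarith) p) h
  rw [log_pow, log_pow] at this
  linarith

theorem H_one : H 1 = 1 := by
  unfold H
  have h1 : (1 : ℝ) + 1 = 2 := by norm_num
  have h2 : (1 : ℝ) + 1⁻¹ + 1⁻¹ ^ 2 = 3 := by norm_num
  rw [h1, h2, div_self log2_pos.ne', div_self log3_pos.ne']
  norm_num

theorem H_122 : H (122 / 100) < 0.982 := by
  have h1 : log (1 + (122 / 100 : ℝ)) / log 2 < (84 : ℕ) / (73 : ℕ) :=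
    lt_of_pow (by norm_num) (by norm_num) (by norm_num) (by norm_num)
  have h2 : log (1 + (122 / 100 : ℝ)⁻¹ + (122 / 100 : ℝ)⁻¹ ^ 2) / log 3 < (59 : ℕ) / (71 : ℕ) :=
    lt_of_pow (by norm_num) (by norm_num) (by norm_num) (by norm_num)
  unfold H
  norm_num at h1 h2 ⊢
  linarith

theorem H_13 : 0.983 < H (13 / 10) := by
  have h1 : ((149 : ℕ) : ℝ) / (124 : ℕ) < log (1 + (13 / 10 : ℝ)) / log 2 :=
    gt_of_pow (by norm_num) (by norm_num) (by norm_num)
  have h2 : ((43 : ℕ) : ℝ) / (55 : ℕ) < log (1 + (13 / 10 : ℝ)⁻¹ + (13 / 10 : ℝ)⁻¹ ^ 2) / log 3 :=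
    gt_of_pow (by norm_num) (by norm_num) (by norm_num)
  unfold H
  norm_num at h1 h2 ⊢
  linarith

theorem H_1217 : 0.9812 < H (1217 / 1000) := by
  have h1 : ((201 : ℕ) : ℝ) / (175 : ℕ) < log (1 + (1217 / 1000 : ℝ)) / log 2 :=
    gt_of_pow (by norm_num) (by norm_num) (by norm_num)
  have h2 : ((199 : ℕ) : ℝ) / (239 : ℕ) <
      log (1 + (1217 / 1000 : ℝ)⁻¹ + (1217 / 1000 : ℝ)⁻¹ ^ 2) / log 3 :=
    gt_of_pow (by norm_num) (by norm_num) (by norm_num)
  unfold H
  norm_num at h1 h2 ⊢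
  linarith


theorem H_cont : ContinuousOn H (Set.Icc 1 (13 / 10)) := by
  unfold H
  have h1 : ∀ x ∈ Set.Icc (1 : ℝ) (13 / 10), 1 + x ≠ 0 := fun x hx => by
    have := hx.1; positivity
  have h2 : ∀ x ∈ Set.Icc (1 : ℝ) (13 / 10), x ≠ 0 := fun x hx => by
    have := hx.1; positivity
  have h3 : ∀ x ∈ Set.Icc (1 : ℝ) (13 / 10), 1 + x⁻¹ + x⁻¹ ^ 2 ≠ 0 := fun x hx => by
    have := hx.1; positivity
  have c1 : ContinuousOn (fun x : ℝ => log (1 + x)) (Set.Icc 1 (13 / 10)) :=
    ContinuousOn.log (by fun_prop) h1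
  have c2 : ContinuousOn (fun x : ℝ => log (1 + x⁻¹ + x⁻¹ ^ 2)) (Set.Icc 1 (13 / 10)) :=
    ContinuousOn.log (by fun_prop (disch := exact h2)) h3
  exact ((c1.div_const _).add (c2.div_const _)).sub continuousOn_const

/-- If `H x0 ≤ H y` for `y` near `x0` then `DH x0 = 0`. -/
theorem DH_zero {x0 : ℝ} (hx : 0 < x0) (h : ∀ᶠ y in nhds x0, H x0 ≤ H y) : DH x0 = 0 := by
  have key : ∀ y, 0 < y → H x0 ≤ H y → 0 ≤ DH y * (log y - log x0) := fun y hy hh => by
    have := tangent hy hx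
    nlinarith
  by_contra hne
  rcases lt_or_gt_of_ne hne with hneg | hpos
  · have e1 : ∀ᶠ y in nhds x0, DH y < 0 := (DH_cont hx).eventually_lt_const hneg
    have e2 : ∀ᶠ y in nhds x0, 0 < y := lt_mem_nhds hx
    have e3 : ∀ᶠ y in nhdsWithin x0 (Set.Ioi x0), DH y < 0 ∧ 0 < y ∧ H x0 ≤ H y :=
      (e1.and (e2.and h)).filter_mono nhdsWithin_le_nhds
    obtain ⟨y, ⟨h1, h2, h3⟩, h4⟩ := (e3.and self_mem_nhdsWithin).exists
    have h5 := key y h2 h3
    have h6 : 0 < log y - log x0 := sub_pos.2 (log_lt_log hx h4)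
    nlinarith
  · have e1 : ∀ᶠ y in nhds x0, 0 < DH y := (DH_cont hx).eventually_const_lt hpos
    have e2 : ∀ᶠ y in nhds x0, 0 < y := lt_mem_nhds hx
    have e3 : ∀ᶠ y in nhdsWithin x0 (Set.Iio x0), 0 < DH y ∧ 0 < y ∧ H x0 ≤ H y :=
      (e1.and (e2.and h)).filter_mono nhdsWithin_le_nhds
    obtain ⟨y, ⟨h1, h2, h3⟩, h4⟩ := (e3.and self_mem_nhdsWithin).exists
    have h5 := key y h2 h3
    have h6 : log y - log x0 < 0 := sub_neg.2 (log_lt_log h2 h4)
    nlinarith

theorem DH_1217 : 0 ≤ DH (1217 / 1000) ∧ DH (1217 / 1000) ≤ 0.0005 := by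
  have h2 := log2_pos
  have h3 := log3_pos
  have a1 : log (3 : ℝ) / log 2 < (149 : ℕ) / (94 : ℕ) :=
    lt_of_pow (by norm_num) (by norm_num) (by norm_num) (by norm_num)
  have a2 : ((84 : ℕ) : ℝ) / (53 : ℕ) < log (3 : ℝ) / log 2 :=
    gt_of_pow (by norm_num) (by norm_num) (by norm_num)
  rw [div_lt_div_iff₀ h2 (by norm_num)] at a1
  rw [div_lt_div_iff₀ (by norm_num) h2] at a2
  have l3 : 1 ≤ log (3 : ℝ) := by
    rw [le_log_iff_exp_le (by norm_num)]
    exact (exp_one_lt_d9.trans (by norm_num)).le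
  push_cast at a1 a2
  have e : DH (1217 / 1000) =
      (1217 / 2217 * log 3 - 3217000 / 3698089 * log 2) / (log 2 * log 3) := by
    unfold DH
    field_simp
    ring
  rw [e]
  constructor
  · apply div_nonneg _ (by positivity)
    nlinarith
  · rw [div_le_iff₀ (by positivity)]
    have : 0 < log 2 * (log 3 - 1) ∨ log 2 * (log 3 - 1) = 0 := by
      rcases l3.lt_or_eq with h | h
      · left; apply mul_pos h2; linarith
      · right; rw [← h]; ring
    have h5 : log 2 ≤ log 2 * log 3 := by nlinarith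
    nlinarith

theorem H_min : ∃ x0 : ℝ, 1 < x0 ∧ x0 < 13 / 10 ∧ (∀ x : ℝ, 0 < x → H x0 ≤ H x) ∧
    0.981 < H x0 ∧ H x0 < 0.982 ∧
    ∀ c : ℝ, 0 < c → ∃ δ : ℝ, 0 < δ ∧ δ < 1 ∧
      1 ≤ x0 * Real.exp (-δ) ∧ x0 * Real.exp δ ≤ 13 / 10 ∧
      H (x0 * Real.exp δ) ≤ H x0 + c * δ ∧ H (x0 * Real.exp (-δ)) ≤ H x0 + c * δ := by
  obtain ⟨x0, hx0, hmin⟩ := isCompact_Icc.exists_isMinOn
    (Set.nonempty_Icc.2 (show (1 : ℝ) ≤ 13 / 10 by norm_num)) H_cont
  have hlt : H x0 < 0.982 :=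
    (hmin (show (122 / 100 : ℝ) ∈ Set.Icc (1 : ℝ) (13 / 10) by norm_num)).trans_lt H_122
  have h1 : 1 < x0 := by
    rcases hx0.1.lt_or_eq with h | h
    · exact h
    · rw [← h, H_one] at hlt
      norm_num at hlt
  have h2 : x0 < 13 / 10 := by
    rcases hx0.2.lt_or_eq with h | h
    · exact h
    · rw [h] at hlt
      have := H_13
      norm_num at hlt this
      linarith
  have hpos : 0 < x0 := by linarith
  have hD : DH x0 = 0 := DH_zero hpos (by
    filter_upwards [Icc_mem_nhds h1 h2] with y hy using hmin hy)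
  have hglob : ∀ x : ℝ, 0 < x → H x0 ≤ H x := fun x hx => by
    have := tangent hpos hx
    rw [hD] at this
    linarith
  refine ⟨x0, h1, h2, hglob, ?_, hlt, fun c hc => ?_⟩
  · have t := tangent (show (0 : ℝ) < 1217 / 1000 by norm_num) hpos
    have hd := DH_1217
    have hl : log (1217 / 1000 : ℝ) ≤ 0.217 :=
      (log_le_sub_one_of_pos (by norm_num)).trans (by norm_num)
    have hl0 : 0 ≤ log x0 := log_nonneg h1.le
    have hH := H_1217
    norm_num at hl hd hH ⊢
    nlinarith [hd.1, hd.2]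
  · have c1 : Filter.Tendsto (fun δ : ℝ => x0 * exp δ) (nhds 0) (nhds x0) := by
      have : ContinuousAt (fun δ : ℝ => x0 * exp δ) 0 := by fun_prop
      simpa using this.tendsto
    have c2 : Filter.Tendsto (fun δ : ℝ => x0 * exp (-δ)) (nhds 0) (nhds x0) := by
      have : ContinuousAt (fun δ : ℝ => x0 * exp (-δ)) 0 := by fun_prop
      simpa using this.tendsto
    have d1 : Filter.Tendsto DH (nhds x0) (nhds 0) := by
      have := (DH_cont hpos).tendsto
      rwa [hD] at this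
    have e1 := (d1.comp c1).eventually_le_const hc
    have e2 := (d1.comp c2).eventually_const_le (neg_lt_zero.2 hc)
    have e3 := c1.eventually_le_const h2
    have e4 := c2.eventually_const_le h1
    have e5 : ∀ᶠ δ : ℝ in nhds 0, δ < 1 := gt_mem_nhds (by norm_num)
    have e6 : ∀ᶠ δ : ℝ in nhdsWithin 0 (Set.Ioi 0), _ :=
      (e1.and (e2.and (e3.and (e4.and e5)))).filter_mono nhdsWithin_le_nhds
    obtain ⟨δ, ⟨f1, f2, f3, f4, f5⟩, f6⟩ := (e6.and self_mem_nhdsWithin).exists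
    have f6' : 0 < δ := f6
    refine ⟨δ, f6, f5, f4, f3, ?_, ?_⟩
    · have t := tangent (show 0 < x0 * exp δ by positivity) hpos
      rw [log_mul hpos.ne' (exp_pos _).ne', log_exp] at t
      simp only [Function.comp] at f1
      nlinarith
    · have t := tangent (show 0 < x0 * exp (-δ) by positivity) hpos
      rw [log_mul hpos.ne' (exp_pos _).ne', log_exp] at t
      simp only [Function.comp] at f2
      nlinarith

end Pool.Agent.Helper25.EX
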